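import Pool.Agent.H75.GC.Tau

/-!
# MP_f0f0c5 (H75/GC): Young's inequality for `tau` and integrability of the comparison function
-/

set_option autoImplicit false

namespace Pool.Agent.H67.GC

open MeasureTheory Filter Pool.Agent.H75.GC

lemma young_one {ι : Type*} [Fintype ι] (w : ι → ℝ) (hw : ∀ j, 0 ≤ w j) (hw1 : ∑ j, w j < 1)
    {e : ℝ} (he : 0 < e) :
    ∃ L : ℝ, 0 ≤ L ∧ ∀ t : ℝ, 0 < t → ∀ s : ι → ℝ, (∀ j, 0 < s j) →
      t ^ (1 - ∑ j, w j) * ∏ j, s j ^ w j ≤ e * ∑ j, s j + L * t := by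
  set α := ∑ j, w j with hα
  have h0 : 0 ≤ α := Finset.sum_nonneg fun j _ => hw j
  have h1 : 0 < 1 - α := by linarith
  have hl0 : 0 < e ^ (-(α / (1 - α))) := Real.rpow_pos_of_pos he _
  refine ⟨e ^ (-(α / (1 - α))), hl0.le, fun t ht s hs => ?_⟩
  have hwle : ∀ j, w j ≤ 1 := fun j =>
    (Finset.single_le_sum (fun i _ => hw i) (Finset.mem_univ j)).trans hw1.le
  have key := Real.geom_mean_le_arith_mean_weighted (Finset.univ : Finset (Option ι))
    (fun i => i.elim (1 - α) w) (fun i => i.elim (e ^ (-(α / (1 - α))) * t) (fun j => e * s j))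
    (by
      intro i _
      cases i with
      | none => exact h1.le
      | some j => exact hw j)
    (by
      rw [Fintype.sum_option]
      simp only [Option.elim]
      rw [← hα]; ring)
    (by
      intro i _
      cases i with
      | none => exact (mul_pos hl0 ht).le
      | some j => exact (mul_pos he (hs j)).le)
  rw [Fintype.prod_option, Fintype.sum_option] at key
  simp only [Option.elim] at key
  have e1 : (e ^ (-(α / (1 - α))) * t) ^ (1 - α) = e ^ (-α) * t ^ (1 - α) := by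
    rw [Real.mul_rpow hl0.le ht.le, ← Real.rpow_mul he.le]
    congr 2
    field_simp
  have e2 : ∏ j, (e * s j) ^ w j = e ^ α * ∏ j, s j ^ w j := by
    rw [hα, Real.rpow_sum_of_pos he, ← Finset.prod_mul_distrib]
    exact Finset.prod_congr rfl fun j _ => Real.mul_rpow he.le (hs j).le
  rw [e1, e2] at key
  have e3 : e ^ (-α) * t ^ (1 - α) * (e ^ α * ∏ j, s j ^ w j) = t ^ (1 - α) * ∏ j, s j ^ w j := by
    have : e ^ (-α) * e ^ α = 1 := by
      rw [← Real.rpow_add he]; simp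
    calc _ = (e ^ (-α) * e ^ α) * (t ^ (1 - α) * ∏ j, s j ^ w j) := by ring
      _ = _ := by rw [this, one_mul]
  rw [e3] at key
  refine key.trans ?_
  have h2 : (1 - α) * (e ^ (-(α / (1 - α))) * t) ≤ e ^ (-(α / (1 - α))) * t := by
    have := mul_pos hl0 ht
    nlinarith
  have h3 : ∑ j, w j * (e * s j) ≤ e * ∑ j, s j := by
    rw [Finset.mul_sum]
    refine Finset.sum_le_sum fun j _ => ?_
    have := mul_pos he (hs j)
    have := hwle j
    nlinarith
  linarith

lemma rpow_aux {x b c : ℝ} (hx : 0 < x) (hb : 0 < b) (hc0 : 0 ≤ c) (hc : c ≤ 1) :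
    x ^ (c * -b) ≤ 1 + x ^ (-b) := by
  rcases le_or_gt 1 x with h | h
  · have h1 : x ^ (c * -b) ≤ 1 := Real.rpow_le_one_of_one_le_of_nonpos h (by nlinarith)
    have h2 := Real.rpow_pos_of_pos hx (-b)
    linarith
  · have h1 : x ^ (c * -b) ≤ x ^ (-b) := Real.rpow_le_rpow_of_exponent_ge hx h.le (by nlinarith)
    linarith

lemma pow_aux {x b : ℝ} {K : ℕ} (hx : 0 < x) (hb : 0 < b) (hbK : b * K ≤ 1 / 2) :
    (1 + x ^ (-b)) ^ K ≤ 2 ^ K * (2 + x ^ (-(1 / 2) : ℝ)) := by
  have h2 := Real.rpow_pos_of_pos hx (-b)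
  have h3 := Real.rpow_pos_of_pos hx (-(1 / 2) : ℝ)
  have h4 : (0 : ℝ) < 2 ^ K := by positivity
  rcases le_or_gt 1 x with h | h
  · have h1 : x ^ (-b) ≤ 1 := Real.rpow_le_one_of_one_le_of_nonpos h (by linarith)
    have h5 : (1 + x ^ (-b)) ^ K ≤ 2 ^ K := pow_le_pow_left₀ (by linarith) (by linarith) K
    nlinarith
  · have h1 : 1 ≤ x ^ (-b) := Real.one_le_rpow_of_pos_of_le_one_of_nonpos hx h.le (by linarith)
    have h5 : (1 + x ^ (-b)) ^ K ≤ (2 * x ^ (-b)) ^ K :=
      pow_le_pow_left₀ (by linarith) (by linarith) K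
    have h6 : (x ^ (-b)) ^ K ≤ x ^ (-(1 / 2) : ℝ) := by
      rw [← Real.rpow_natCast, ← Real.rpow_mul hx.le]
      exact Real.rpow_le_rpow_of_exponent_ge hx h.le (by linarith)
    rw [mul_pow] at h5
    nlinarith

section

variable {ι κ : Type*} [Fintype ι]

lemma tau_pos' (a : ι → κ → ℕ) (r : κ → ℕ) {t : ℝ} (ht : 0 < t) (k : κ) {s : ι → ℝ}
    (hs : s ∈ pos ι) : 0 < tau a r t k s := by
  unfold tau
  exact mul_pos (Real.rpow_pos_of_pos ht _)
    (Finset.prod_pos fun j _ => Real.rpow_pos_of_pos (hs j (Set.mem_univ j)) _)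

lemma measurable_tau (a : ι → κ → ℕ) (r : κ → ℕ) (t : ℝ) (k : κ) :
    Measurable (tau a r t k) := by
  unfold tau
  refine measurable_const.mul ?_
  exact Finset.measurable_fun_prod _ fun j _ => (measurable_pi_apply j).pow_const _

lemma measurable_W [Fintype κ] (a : ι → κ → ℕ) (r : κ → ℕ) (b : ℝ) (δ T : κ → ℝ) (t : ℝ) :
    Measurable (W a r b δ T t) := by
  unfold W maj
  refine (Real.measurable_exp.comp (Finset.measurable_fun_sum _ fun j _ =>
    measurable_pi_apply j).neg).mul ?_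
  refine Finset.measurable_fun_prod _ fun k _ => ?_
  have h := measurable_tau a r t k
  exact (((h.pow_const _).const_add 1).mul ((h.const_add 1).pow_const _)).mul
    (Real.measurable_exp.comp (h.const_mul _))

end

end Pool.Agent.H67.GC

namespace Pool.Agent.H75.GC

open MeasureTheory Filter Pool.Agent.H67.GC

variable {ι κ : Type*} [Fintype ι] [Fintype κ]

/-- YOUNG: sublinear growth. -/
theorem tau_le (a : ι → κ → ℕ) (r : κ → ℕ) (hr : ∀ k, ∑ j, a j k < r k) {e : ℝ} (he : 0 < e) :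
    ∃ C : ℝ, 0 ≤ C ∧ ∀ t : ℝ, 0 < t → ∀ s ∈ pos ι, ∀ k, tau a r t k s ≤ e * ∑ j, s j + C * t := by
  classical
  have hr0 : ∀ k, (0 : ℝ) < r k := fun k => by
    have := hr k
    exact_mod_cast (show 0 < r k by omega)
  have h := fun k => young_one (fun j => (a j k : ℝ) / (r k : ℝ))
    (fun j => div_nonneg (Nat.cast_nonneg _) (Nat.cast_nonneg _))
    (by
      rw [← Finset.sum_div, div_lt_one (hr0 k)]
      exact_mod_cast hr k) he
  choose L hL0 hL using h
  refine ⟨∑ k, L k, Finset.sum_nonneg fun k _ => hL0 k, fun t ht s hs k => ?_⟩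
  have h1 := hL k t ht s (fun j => hs j (Set.mem_univ j))
  rw [← Finset.sum_div] at h1
  have h2 : L k * t ≤ (∑ k, L k) * t :=
    mul_le_mul_of_nonneg_right (Finset.single_le_sum (fun i _ => hL0 i) (Finset.mem_univ k)) ht.le
  unfold tau
  linarith

/-- INT: the comparison function is integrable. -/
theorem W_integrable (a : ι → κ → ℕ) (r : κ → ℕ) (hr : ∀ k, ∑ j, a j k < r k) {b : ℝ} (hb : 0 < b)
    (hbK : b * Fintype.card κ ≤ 1 / 2) (δ T : κ → ℝ) (hδ : ∀ k, 0 ≤ δ k) (hT : ∀ k, 0 < T k)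
    {t : ℝ} (ht : 0 < t) :
    IntegrableOn (W a r b δ T t) (pos ι) := by
  classical
  set Λ : ℝ := ∑ k, T k with hΛ
  have hΛ0 : 0 ≤ Λ := Finset.sum_nonneg fun k _ => (hT k).le
  obtain ⟨C, hC0, hC⟩ := tau_le a r hr (e := 1 / (2 * (Λ + 1))) (by positivity)
  have hr0 : ∀ k, (0 : ℝ) < r k := fun k => by
    have := hr k
    exact_mod_cast (show 0 < r k by omega)
  -- the constants
  set c : κ → ℝ := fun k => t ^ ((1 - (∑ j, (a j k : ℝ)) / (r k : ℝ)) * -b) with hc
  have hc0 : ∀ k, 0 < c k := fun k => Real.rpow_pos_of_pos ht _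
  set g : ℝ → ℝ := fun x => Real.exp (-(1 / 2) * x) * (2 ^ Fintype.card κ *
    (2 + x ^ (-(1 / 2) : ℝ))) with hg
  set D : ℝ := Real.exp (Λ * (C * t)) * ∏ k, (1 + c k) with hD
  -- integrability of the majorant
  have hg1 : IntegrableOn g (Set.Ioi 0) := by
    have h1 : IntegrableOn (fun x : ℝ => Real.exp (-(1 / 2) * x)) (Set.Ioi 0) :=
      integrableOn_exp_mul_Ioi (by norm_num) 0
    have h2 : IntegrableOn (fun x : ℝ => x ^ (-(1 / 2) : ℝ) * Real.exp (-(1 / 2) * x))
        (Set.Ioi 0) := by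
      have := integrableOn_rpow_mul_exp_neg_mul_rpow (p := 1) (s := -(1 / 2)) (b := 1 / 2)
        (by norm_num) one_pos (by norm_num)
      simpa only [Real.rpow_one] using this
    have h3 := ((h1.const_mul 2).add h2).const_mul (2 ^ Fintype.card κ)
    refine IntegrableOn.congr_fun (f := _) h3 (fun x _ => ?_) measurableSet_Ioi
    simp only [hg, Pi.add_apply]
    ring
  have hmaj : IntegrableOn (fun s : ι → ℝ => D * ∏ j, g (s j)) (pos ι) := by
    unfold IntegrableOn pos
    rw [volume_pi, Measure.restrict_pi_pi]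
    exact (Integrable.fintype_prod fun _ => hg1).const_mul D
  -- comparison
  refine Integrable.mono' hmaj (measurable_W a r b δ T t).aestronglyMeasurable ?_
  have hms : MeasurableSet (pos ι) := MeasurableSet.univ_pi fun _ => measurableSet_Ioi
  refine (ae_restrict_iff' hms).2 (Eventually.of_forall fun s hs => ?_)
  have hs0 : ∀ j, 0 < s j := fun j => hs j (Set.mem_univ j)
  have hτ : ∀ k, 0 < tau a r t k s := fun k => tau_pos' a r ht k hs
  have hWnn : 0 ≤ W a r b δ T t s := by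
    unfold W
    refine mul_nonneg (Real.exp_pos _).le (Finset.prod_nonneg fun k _ => ?_)
    unfold maj
    have := hτ k
    positivity
  rw [Real.norm_eq_abs, abs_of_nonneg hWnn]
  -- each factor
  have hz1 : ∀ j, 1 ≤ 1 + s j ^ (-b) := fun j => by
    have := Real.rpow_pos_of_pos (hs0 j) (-b)
    linarith
  have hZ : 1 ≤ ∏ j, (1 + s j ^ (-b)) := by
    have := Finset.prod_le_prod (s := Finset.univ) (f := fun _ : ι => (1 : ℝ))
      (g := fun j => 1 + s j ^ (-b)) (fun _ _ => zero_le_one) (fun j _ => hz1 j)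
    simpa using this
  have hfac : ∀ k, maj b (δ k) (T k) (tau a r t k s) ≤
      ((1 + c k) * ∏ j, (1 + s j ^ (-b))) * Real.exp (T k * tau a r t k s) := by
    intro k
    unfold maj
    refine mul_le_mul_of_nonneg_right ?_ (Real.exp_pos _).le
    have h1 : (1 + tau a r t k s) ^ (-(δ k)) ≤ 1 :=
      Real.rpow_le_one_of_one_le_of_nonpos (by linarith [hτ k]) (by linarith [hδ k])
    have h2 : tau a r t k s ^ (-b) ≤ c k * ∏ j, (1 + s j ^ (-b)) := by
      unfold tau
      rw [Real.mul_rpow (Real.rpow_nonneg ht.le _)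
        (Finset.prod_nonneg fun j _ => Real.rpow_nonneg (hs0 j).le _), ← Real.rpow_mul ht.le,
        ← Real.finsetProd_rpow _ _ (fun j _ => Real.rpow_nonneg (hs0 j).le _)]
      refine mul_le_mul_of_nonneg_left (Finset.prod_le_prod
        (fun j _ => Real.rpow_nonneg (Real.rpow_nonneg (hs0 j).le _) _) fun j _ => ?_) (hc0 k).le
      rw [← Real.rpow_mul (hs0 j).le]
      refine rpow_aux (hs0 j) hb (div_nonneg (Nat.cast_nonneg _) (Nat.cast_nonneg _)) ?_
      rw [div_le_one (hr0 k)]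
      have h3 : a j k ≤ ∑ j, a j k :=
        Finset.single_le_sum (f := fun j => a j k) (fun _ _ => Nat.zero_le _) (Finset.mem_univ j)
      have h4 := hr k
      exact_mod_cast (show a j k ≤ r k by omega)
    have h3 : 0 < tau a r t k s ^ (-b) := Real.rpow_pos_of_pos (hτ k) _
    calc (1 + tau a r t k s ^ (-b)) * (1 + tau a r t k s) ^ (-(δ k))
        ≤ (1 + tau a r t k s ^ (-b)) * 1 := mul_le_mul_of_nonneg_left h1 (by linarith)
      _ ≤ (1 + c k) * ∏ j, (1 + s j ^ (-b)) := by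
        rw [mul_one]
        nlinarith
  have hprod : ∏ k, maj b (δ k) (T k) (tau a r t k s) ≤
      (∏ k, (1 + c k)) * (∏ j, (1 + s j ^ (-b)) ^ Fintype.card κ) *
        Real.exp (∑ k, T k * tau a r t k s) := by
    refine (Finset.prod_le_prod (fun k _ => ?_) fun k _ => hfac k).trans ?_
    · unfold maj
      have := hτ k
      positivity
    · rw [Finset.prod_mul_distrib, Finset.prod_mul_distrib, Finset.prod_const, Real.exp_sum,
        Finset.card_univ, Finset.prod_pow]
  have hexp : ∑ k, T k * tau a r t k s ≤ (1 / 2) * ∑ j, s j + Λ * (C * t) := by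
    have h1 : ∑ k, T k * tau a r t k s ≤
        ∑ k, T k * (1 / (2 * (Λ + 1)) * ∑ j, s j + C * t) :=
      Finset.sum_le_sum fun k _ => mul_le_mul_of_nonneg_left (hC t ht s hs k) (hT k).le
    rw [← Finset.sum_mul, ← hΛ] at h1
    refine h1.trans ?_
    have hS : 0 ≤ ∑ j, s j := Finset.sum_nonneg fun j _ => (hs0 j).le
    have h2 : Λ * (1 / (2 * (Λ + 1))) ≤ 1 / 2 := by
      rw [mul_one_div, div_le_div_iff₀ (by positivity) (by norm_num)]
      linarith
    have h3 : Λ * (1 / (2 * (Λ + 1))) * ∑ j, s j ≤ 1 / 2 * ∑ j, s j :=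
      mul_le_mul_of_nonneg_right h2 hS
    linarith
  have hgprod : ∏ j, g (s j) = Real.exp (-(1 / 2) * ∑ j, s j) *
      ∏ j, (2 ^ Fintype.card κ * (2 + s j ^ (-(1 / 2) : ℝ))) := by
    simp only [hg]
    rw [Finset.prod_mul_distrib, ← Real.exp_sum, Finset.mul_sum]
  have hpp : ∏ j, (1 + s j ^ (-b)) ^ Fintype.card κ ≤
      ∏ j, (2 ^ Fintype.card κ * (2 + s j ^ (-(1 / 2) : ℝ))) := by
    refine Finset.prod_le_prod (fun j _ => ?_) fun j _ => pow_aux (hs0 j) hb hbK
    have := hz1 j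
    positivity
  have hc1 : 0 ≤ ∏ k, (1 + c k) := Finset.prod_nonneg fun k _ => by
    have := hc0 k
    linarith
  have hppnn : 0 ≤ ∏ j, (1 + s j ^ (-b)) ^ Fintype.card κ := Finset.prod_nonneg fun j _ => by
    have := hz1 j
    positivity
  calc W a r b δ T t s
      = Real.exp (-∑ j, s j) * ∏ k, maj b (δ k) (T k) (tau a r t k s) := rfl
    _ ≤ Real.exp (-∑ j, s j) * ((∏ k, (1 + c k)) * (∏ j, (1 + s j ^ (-b)) ^ Fintype.card κ) *
        Real.exp (∑ k, T k * tau a r t k s)) := mul_le_mul_of_nonneg_left hprod (Real.exp_pos _).le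
    _ = ((∏ k, (1 + c k)) * (∏ j, (1 + s j ^ (-b)) ^ Fintype.card κ)) *
        Real.exp (-∑ j, s j + ∑ k, T k * tau a r t k s) := by rw [Real.exp_add]; ring
    _ ≤ ((∏ k, (1 + c k)) * (∏ j, (2 ^ Fintype.card κ * (2 + s j ^ (-(1 / 2) : ℝ))))) *
        Real.exp (-(1 / 2) * ∑ j, s j + Λ * (C * t)) := by
        refine mul_le_mul (mul_le_mul_of_nonneg_left hpp hc1) (Real.exp_le_exp.2 (by linarith))
          (Real.exp_pos _).le (mul_nonneg hc1 (hppnn.trans hpp))
    _ = D * ∏ j, g (s j) := by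
        rw [hgprod, hD, Real.exp_add]
        ring

end Pool.Agent.H75.GC
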