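import Pool.Agent.H67.GC.Int

/-!
# MP_f0f0c5 (H75/GC): the translation trick, pointwise part
-/

set_option autoImplicit false

namespace Pool.Agent.H67.GC

open MeasureTheory Filter Pool.Agent.H75.GC

/-- the one-dimensional weight -/
noncomputable def hK (K : ℕ) (x : ℝ) : ℝ := 2 ^ K * (2 + x ^ (-(1 / 2) : ℝ))

lemma F_quasi {δ T : ℝ} (hδ : 0 ≤ δ) (hT : 0 < T) : ∃ M : ℝ, 1 ≤ M ∧ ∀ x y : ℝ, 0 ≤ x → x ≤ y →
    (1 + x) ^ (-δ) * Real.exp (T * x) ≤ M * ((1 + y) ^ (-δ) * Real.exp (T * y)) := by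
  set c : ℝ := 1 + δ / T with hc
  have hc1 : 1 ≤ c := by
    have : 0 ≤ δ / T := div_nonneg hδ hT.le
    linarith
  have hlc : 0 ≤ Real.log c := Real.log_nonneg hc1
  refine ⟨Real.exp (T + δ * Real.log c), Real.one_le_exp (by positivity), fun x y hx hxy => ?_⟩
  have hx1 : 0 < 1 + x := by linarith
  have hy1 : 0 < 1 + y := by linarith
  rw [Real.rpow_def_of_pos hx1, Real.rpow_def_of_pos hy1, ← Real.exp_add, ← Real.exp_add,
    ← Real.exp_add]
  apply Real.exp_le_exp.2
  -- `δ (log (1+y) - log (1+x)) ≤ T (y - x) + T + δ log c`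
  have h1 : Real.log (1 + y) - Real.log (1 + x) ≤ Real.log (1 + (y - x)) := by
    rw [← Real.log_div hy1.ne' hx1.ne']
    apply Real.log_le_log (div_pos hy1 hx1)
    rw [div_le_iff₀ hx1]
    nlinarith
  have hz : 0 < 1 + (y - x) := by linarith
  have h2 : Real.log (1 + (y - x)) ≤ (1 + (y - x)) / c + Real.log c := by
    have h3 := Real.log_le_sub_one_of_pos (div_pos hz (by linarith : 0 < c))
    rw [Real.log_div hz.ne' (by linarith : (c : ℝ) ≠ 0)] at h3
    linarith
  have h4 : δ * ((1 + (y - x)) / c) ≤ T * (1 + (y - x)) := by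
    have h5 : δ / c ≤ T := by
      rw [div_le_iff₀ (by linarith : 0 < c), hc, mul_add, mul_div_cancel₀ δ hT.ne']
      linarith
    calc δ * ((1 + (y - x)) / c) = δ / c * (1 + (y - x)) := by ring
      _ ≤ T * (1 + (y - x)) := mul_le_mul_of_nonneg_right h5 hz.le
  have h6 : δ * (Real.log (1 + y) - Real.log (1 + x)) ≤
      δ * ((1 + (y - x)) / c + Real.log c) := mul_le_mul_of_nonneg_left (h1.trans h2) hδ
  nlinarith

lemma F_large {δ T : ℝ} (hδ : 0 ≤ δ) (hT : 0 < T) (B : ℝ) : ∃ Y : ℝ, 0 ≤ Y ∧ ∀ y : ℝ, Y ≤ y →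
    B ≤ (1 + y) ^ (-δ) * Real.exp (T * y) := by
  obtain ⟨M, hM1, hM⟩ := F_quasi hδ (half_pos hT)
  have hM0 : 0 < M := by linarith
  have ht : Tendsto (fun y : ℝ => Real.exp (T / 2 * y)) atTop atTop :=
    Real.tendsto_exp_atTop.comp (tendsto_id.const_mul_atTop (half_pos hT))
  obtain ⟨Y, hY⟩ := (ht.eventually (eventually_ge_atTop (M * B))).exists_forall_of_atTop
  refine ⟨max Y 0, le_max_right _ _, fun y hy => ?_⟩
  have hy0 : 0 ≤ y := (le_max_right _ _).trans hy
  have h1 := hM 0 y le_rfl hy0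
  simp only [add_zero, Real.one_rpow, mul_zero, Real.exp_zero, mul_one] at h1
  have h2 := hY y ((le_max_left _ _).trans hy)
  have h3 : Real.exp (T * y) = Real.exp (T / 2 * y) * Real.exp (T / 2 * y) := by
    rw [← Real.exp_add]; congr 1; ring
  rw [h3]
  have h4 : 0 < Real.exp (T / 2 * y) := Real.exp_pos _
  set A := (1 + y) ^ (-δ) * Real.exp (T / 2 * y) with hA
  have h5 : (1 + y) ^ (-δ) * (Real.exp (T / 2 * y) * Real.exp (T / 2 * y)) =
      A * Real.exp (T / 2 * y) := by rw [hA]; ring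
  rw [h5]
  have h6 : M * B ≤ M * (A * Real.exp (T / 2 * y)) := by
    calc M * B ≤ Real.exp (T / 2 * y) := h2
      _ ≤ (M * A) * Real.exp (T / 2 * y) := by nlinarith
      _ = _ := by ring
  exact le_of_mul_le_mul_left h6 hM0

section

variable {ι κ : Type*} [Fintype ι]

lemma tau_mono (a : ι → κ → ℕ) (r : κ → ℕ) {t : ℝ} (ht : 0 < t) (k : κ) {s s' : ι → ℝ}
    (hs : s ∈ pos ι) (hss : ∀ j, s j ≤ s' j) : tau a r t k s ≤ tau a r t k s' := by
  unfold tau
  refine mul_le_mul_of_nonneg_left (Finset.prod_le_prod (fun j _ => ?_) fun j _ => ?_)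
    (Real.rpow_nonneg ht.le _)
  · exact Real.rpow_nonneg (le_of_lt (hs j (Set.mem_univ j))) _
  · exact Real.rpow_le_rpow (le_of_lt (hs j (Set.mem_univ j))) (hss j)
      (div_nonneg (Nat.cast_nonneg _) (Nat.cast_nonneg _))

lemma tau_ge (a : ι → κ → ℕ) (r : κ → ℕ) {t : ℝ} (ht : 0 < t) (k : κ) {s : ι → ℝ}
    (hs : ∀ j, 1 ≤ s j) : t ^ (1 - (∑ j, (a j k : ℝ)) / (r k : ℝ)) ≤ tau a r t k s := by
  unfold tau
  have h : (1 : ℝ) ≤ ∏ j, s j ^ ((a j k : ℝ) / (r k : ℝ)) := by
    have := Finset.prod_le_prod (s := Finset.univ) (f := fun _ : ι => (1 : ℝ))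
      (g := fun j => s j ^ ((a j k : ℝ) / (r k : ℝ))) (fun _ _ => zero_le_one)
      (fun j _ => Real.one_le_rpow (hs j) (div_nonneg (Nat.cast_nonneg _) (Nat.cast_nonneg _)))
    simpa using this
  have h2 := Real.rpow_pos_of_pos ht (1 - (∑ j, (a j k : ℝ)) / (r k : ℝ))
  nlinarith

lemma sing_le (a : ι → κ → ℕ) (r : κ → ℕ) {k : κ} (hr : ∑ j, a j k < r k) {b : ℝ} (hb : 0 < b)
    {t : ℝ} (ht : 1 ≤ t) {s : ι → ℝ} (hs : s ∈ pos ι) :
    1 + tau a r t k s ^ (-b) ≤ 2 * ∏ j, (1 + s j ^ (-b)) := by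
  have hs0 : ∀ j, 0 < s j := fun j => hs j (Set.mem_univ j)
  have ht0 : 0 < t := by linarith
  have hr0 : (0 : ℝ) < r k := by exact_mod_cast (show 0 < r k by omega)
  have hZ : 1 ≤ ∏ j, (1 + s j ^ (-b)) := by
    have := Finset.prod_le_prod (s := Finset.univ) (f := fun _ : ι => (1 : ℝ))
      (g := fun j => 1 + s j ^ (-b)) (fun _ _ => zero_le_one) (fun j _ => by
        have := Real.rpow_pos_of_pos (hs0 j) (-b)
        linarith)
    simpa using this
  have hα : 0 ≤ 1 - (∑ j, (a j k : ℝ)) / (r k : ℝ) := by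
    have : (∑ j, (a j k : ℝ)) / (r k : ℝ) ≤ 1 := by
      rw [div_le_one hr0]
      exact_mod_cast hr.le
    linarith
  have h2 : tau a r t k s ^ (-b) ≤ 1 * ∏ j, (1 + s j ^ (-b)) := by
    unfold tau
    rw [Real.mul_rpow (Real.rpow_nonneg ht0.le _)
      (Finset.prod_nonneg fun j _ => Real.rpow_nonneg (hs0 j).le _), ← Real.rpow_mul ht0.le,
      ← Real.finsetProd_rpow _ _ (fun j _ => Real.rpow_nonneg (hs0 j).le _)]
    refine mul_le_mul (Real.rpow_le_one_of_one_le_of_nonpos ht (by nlinarith))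
      (Finset.prod_le_prod
      (fun j _ => Real.rpow_nonneg (Real.rpow_nonneg (hs0 j).le _) _) fun j _ => ?_)
      (Finset.prod_nonneg fun j _ => Real.rpow_nonneg (Real.rpow_nonneg (hs0 j).le _) _) zero_le_one
    rw [← Real.rpow_mul (hs0 j).le]
    refine rpow_aux (hs0 j) hb (div_nonneg (Nat.cast_nonneg _) (Nat.cast_nonneg _)) ?_
    rw [div_le_one hr0]
    have h3 : a j k ≤ ∑ j, a j k :=
      Finset.single_le_sum (f := fun j => a j k) (fun _ _ => Nat.zero_le _) (Finset.mem_univ j)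
    exact_mod_cast (show a j k ≤ r k by omega)
  linarith

variable [Fintype κ]

lemma W_nonneg (a : ι → κ → ℕ) (r : κ → ℕ) (b : ℝ) (δ T : κ → ℝ) {t : ℝ} (ht : 0 < t)
    {s : ι → ℝ} (hs : s ∈ pos ι) : 0 ≤ W a r b δ T t s := by
  unfold W
  refine mul_nonneg (Real.exp_pos _).le (Finset.prod_nonneg fun k _ => ?_)
  unfold maj
  have := tau_pos' a r ht k hs
  positivity

/-- **the pointwise part of the translation trick** -/
theorem W_shift (a : ι → κ → ℕ) (r : κ → ℕ) (hr : ∀ k, ∑ j, a j k < r k) {b : ℝ} (hb : 0 < b)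
    (hbK : b * Fintype.card κ ≤ 1 / 2) (δ T : κ → ℝ) (hδ : ∀ k, 0 ≤ δ k) (hT : ∀ k, 0 < T k)
    (R : ℝ) {e : ℝ} (he : 0 < e) :
    ∀ᶠ t : ℝ in atTop, ∀ s ∈ pos ι, (∃ k, tau a r t k s ≤ R) → ∀ v : ι → ℝ,
      (∀ j, 1 ≤ v j ∧ v j ≤ 2) →
      W a r b δ T t s ≤ e * ((∏ j, hK (Fintype.card κ) (s j)) * W a r b δ T t (s + v)) := by
  classical
  have hM := fun k => F_quasi (hδ k) (hT k)
  choose M hM1 hM2 using hM
  set Λ : ℝ := ∑ k, T k with hΛ
  set E : ℝ := Real.exp (Λ * |R|) with hE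
  have hE0 : 0 < E := Real.exp_pos _
  have hPM : 0 < ∏ k, M k := Finset.prod_pos fun k _ => by linarith [hM1 k]
  set N : ℝ := 2 ^ Fintype.card κ * Real.exp (2 * Fintype.card ι) * (∏ k, M k) * E with hN
  have hN0 : 0 < N := by positivity
  set B : ℝ := N / e with hB
  have hB0 : 0 < B := div_pos hN0 he
  have hlarge : ∀ k, ∀ᶠ t : ℝ in atTop, ∀ y : ℝ,
      t ^ (1 - (∑ j, (a j k : ℝ)) / (r k : ℝ)) ≤ y →
      B ≤ (1 + y) ^ (-(δ k)) * Real.exp (T k * y) := by
    intro k
    obtain ⟨Y, hY0, hY⟩ := F_large (hδ k) (hT k) B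
    have hr0 : (0 : ℝ) < r k := by
      have := hr k
      exact_mod_cast (show 0 < r k by omega)
    have hα : 0 < 1 - (∑ j, (a j k : ℝ)) / (r k : ℝ) := by
      have : (∑ j, (a j k : ℝ)) / (r k : ℝ) < 1 := by
        rw [div_lt_one hr0]
        exact_mod_cast hr k
      linarith
    filter_upwards [(tendsto_rpow_atTop hα).eventually (eventually_ge_atTop Y)] with t ht y hy
    exact hY y (ht.trans hy)
  filter_upwards [eventually_ge_atTop 1, eventually_all.2 hlarge] with t ht hBt s hs hk v hv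
  obtain ⟨k, hk⟩ := hk
  have ht0 : 0 < t := by linarith
  have hs0 : ∀ j, 0 < s j := fun j => hs j (Set.mem_univ j)
  have hsv : s + v ∈ pos ι := fun j _ => by
    change 0 < s j + v j
    have := hs0 j
    have := (hv j).1
    linarith
  have hsv1 : ∀ j, 1 ≤ (s + v) j := fun j => by
    change 1 ≤ s j + v j
    have := hs0 j
    have := (hv j).1
    linarith
  have hsv2 : ∀ j, s j ≤ (s + v) j := fun j => by
    change s j ≤ s j + v j
    have := (hv j).1
    linarith
  have hτ : ∀ l, 0 < tau a r t l s := fun l => tau_pos' a r ht0 l hs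
  have hτv : ∀ l, 0 < tau a r t l (s + v) := fun l => tau_pos' a r ht0 l hsv
  set F : κ → ℝ → ℝ := fun l x => (1 + x) ^ (-(δ l)) * Real.exp (T l * x) with hF
  have hF0 : ∀ l x, 0 < x → 0 < F l x := fun l x hx => by
    simp only [hF]
    positivity
  -- singular factors
  have hsing : ∏ l, (1 + tau a r t l s ^ (-b)) ≤
      2 ^ Fintype.card κ * ∏ j, hK (Fintype.card κ) (s j) := by
    have h1 : ∏ l, (1 + tau a r t l s ^ (-b)) ≤ ∏ _l : κ, (2 * ∏ j, (1 + s j ^ (-b))) :=
      Finset.prod_le_prod (fun l _ => by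
        have := Real.rpow_pos_of_pos (hτ l) (-b)
        linarith) fun l _ => sing_le a r (hr l) hb ht hs
    refine h1.trans ?_
    rw [Finset.prod_const, Finset.card_univ, mul_pow, ← Finset.prod_pow]
    refine mul_le_mul_of_nonneg_left (Finset.prod_le_prod (fun j _ => ?_) fun j _ => ?_)
      (by positivity)
    · have := Real.rpow_pos_of_pos (hs0 j) (-b)
      positivity
    · exact pow_aux (hs0 j) hb hbK
  -- regular factors
  have hreg : ∏ l, F l (tau a r t l s) ≤
      ((∏ l, M l) * (E / B)) * ∏ l, F l (tau a r t l (s + v)) := by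
    have h1 : ∀ l, F l (tau a r t l s) ≤
        (M l * (if l = k then E / B else 1)) * F l (tau a r t l (s + v)) := by
      intro l
      by_cases hl : l = k
      · subst hl
        rw [if_pos rfl]
        have h2 : F l (tau a r t l s) ≤ E := by
          simp only [hF]
          have h3 : (1 + tau a r t l s) ^ (-(δ l)) ≤ 1 :=
            Real.rpow_le_one_of_one_le_of_nonpos (by linarith [hτ l]) (by linarith [hδ l])
          have h4 : Real.exp (T l * tau a r t l s) ≤ E := by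
            apply Real.exp_le_exp.2
            have h5 : T l ≤ Λ := Finset.single_le_sum (fun i _ => (hT i).le) (Finset.mem_univ l)
            calc T l * tau a r t l s ≤ T l * |R| :=
                  mul_le_mul_of_nonneg_left (hk.trans (le_abs_self R)) (hT l).le
              _ ≤ Λ * |R| := mul_le_mul_of_nonneg_right h5 (abs_nonneg R)
          have h6 : 0 ≤ (1 + tau a r t l s) ^ (-(δ l)) :=
            Real.rpow_nonneg (by linarith [hτ l]) _
          calc (1 + tau a r t l s) ^ (-(δ l)) * Real.exp (T l * tau a r t l s) ≤ 1 * E :=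
                mul_le_mul h3 h4 (Real.exp_pos _).le zero_le_one
            _ = E := one_mul E
        have h7 : B ≤ F l (tau a r t l (s + v)) := hBt l _ (tau_ge a r ht0 l hsv1)
        have h8 : E ≤ E / B * F l (tau a r t l (s + v)) := by
          rw [div_mul_eq_mul_div, le_div_iff₀ hB0]
          exact mul_le_mul_of_nonneg_left h7 hE0.le
        have h9 : 0 < E / B * F l (tau a r t l (s + v)) := by linarith
        calc F l (tau a r t l s) ≤ E / B * F l (tau a r t l (s + v)) := h2.trans h8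
          _ ≤ M l * (E / B * F l (tau a r t l (s + v))) := by nlinarith [hM1 l]
          _ = _ := by ring
      · rw [if_neg hl, mul_one]
        exact hM2 l _ _ (hτ l).le (tau_mono a r ht0 l hs hsv2)
    refine (Finset.prod_le_prod (fun l _ => (hF0 l _ (hτ l)).le) fun l _ => h1 l).trans ?_
    rw [Finset.prod_mul_distrib, Finset.prod_mul_distrib, Finset.prod_ite_eq']
    simp
  -- the translated function
  have hWv : Real.exp (-∑ j, s j) * ∏ l, F l (tau a r t l (s + v)) ≤
      Real.exp (2 * Fintype.card ι) * W a r b δ T t (s + v) := by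
    unfold W
    have h1 : ∑ j, (s + v) j ≤ ∑ j, s j + 2 * Fintype.card ι := by
      have h2 : ∑ j, (s + v) j = ∑ j, s j + ∑ j, v j := by
        rw [← Finset.sum_add_distrib]; rfl
      have h3 : ∑ j, v j ≤ ∑ _j : ι, (2 : ℝ) := Finset.sum_le_sum fun j _ => (hv j).2
      rw [Finset.sum_const, Finset.card_univ, nsmul_eq_mul] at h3
      rw [h2]
      linarith
    have h4 : Real.exp (-∑ j, s j) ≤
        Real.exp (2 * Fintype.card ι) * Real.exp (-∑ j, (s + v) j) := by
      rw [← Real.exp_add]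
      exact Real.exp_le_exp.2 (by linarith)
    have h5 : ∏ l, F l (tau a r t l (s + v)) ≤
        ∏ l, maj b (δ l) (T l) (tau a r t l (s + v)) := by
      refine Finset.prod_le_prod (fun l _ => (hF0 l _ (hτv l)).le) fun l _ => ?_
      have h6 : maj b (δ l) (T l) (tau a r t l (s + v)) =
          (1 + tau a r t l (s + v) ^ (-b)) * F l (tau a r t l (s + v)) := by
        simp only [maj, hF]; ring
      rw [h6]
      have h7 := Real.rpow_pos_of_pos (hτv l) (-b)
      have h8 := hF0 l _ (hτv l)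
      nlinarith
    calc Real.exp (-∑ j, s j) * ∏ l, F l (tau a r t l (s + v))
        ≤ (Real.exp (2 * Fintype.card ι) * Real.exp (-∑ j, (s + v) j)) *
          ∏ l, maj b (δ l) (T l) (tau a r t l (s + v)) :=
          mul_le_mul h4 h5 (Finset.prod_nonneg fun l _ => (hF0 l _ (hτv l)).le)
            (by positivity)
      _ = _ := by ring
  have hWs : W a r b δ T t s = Real.exp (-∑ j, s j) *
      ((∏ l, (1 + tau a r t l s ^ (-b))) * ∏ l, F l (tau a r t l s)) := by
    unfold W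
    rw [← Finset.prod_mul_distrib]
    refine congrArg _ (Finset.prod_congr rfl fun l _ => ?_)
    simp only [maj, hF]; ring
  have hH0 : 0 ≤ ∏ j, hK (Fintype.card κ) (s j) := Finset.prod_nonneg fun j _ => by
    unfold hK
    have := Real.rpow_pos_of_pos (hs0 j) (-(1 / 2) : ℝ)
    positivity
  have hFnn : 0 ≤ ∏ l, F l (tau a r t l s) := Finset.prod_nonneg fun l _ => (hF0 l _ (hτ l)).le
  have hFvnn : 0 ≤ ∏ l, F l (tau a r t l (s + v)) :=
    Finset.prod_nonneg fun l _ => (hF0 l _ (hτv l)).le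
  rw [hWs]
  calc Real.exp (-∑ j, s j) * ((∏ l, (1 + tau a r t l s ^ (-b))) * ∏ l, F l (tau a r t l s))
      ≤ Real.exp (-∑ j, s j) * ((2 ^ Fintype.card κ * ∏ j, hK (Fintype.card κ) (s j)) *
        (((∏ l, M l) * (E / B)) * ∏ l, F l (tau a r t l (s + v)))) :=
        mul_le_mul_of_nonneg_left (mul_le_mul hsing hreg hFnn (by positivity))
          (Real.exp_pos _).le
    _ = (2 ^ Fintype.card κ * (∏ l, M l) * (E / B) * ∏ j, hK (Fintype.card κ) (s j)) *
        (Real.exp (-∑ j, s j) * ∏ l, F l (tau a r t l (s + v))) := by ring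
    _ ≤ (2 ^ Fintype.card κ * (∏ l, M l) * (E / B) * ∏ j, hK (Fintype.card κ) (s j)) *
        (Real.exp (2 * Fintype.card ι) * W a r b δ T t (s + v)) :=
        mul_le_mul_of_nonneg_left hWv (by positivity)
    _ = (N / B) * ((∏ j, hK (Fintype.card κ) (s j)) * W a r b δ T t (s + v)) := by
        rw [hN]; ring
    _ = e * ((∏ j, hK (Fintype.card κ) (s j)) * W a r b δ T t (s + v)) := by
        rw [hB, div_div_cancel₀ hN0.ne']

/-- the same in the form used for the averaging -/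
theorem W_shift' (a : ι → κ → ℕ) (r : κ → ℕ) (hr : ∀ k, ∑ j, a j k < r k) {b : ℝ} (hb : 0 < b)
    (hbK : b * Fintype.card κ ≤ 1 / 2) (δ T : κ → ℝ) (hδ : ∀ k, 0 ≤ δ k) (hT : ∀ k, 0 < T k) :
    ∀ R η : ℝ, 0 < η → ∀ᶠ t : ℝ in atTop, ∀ s ∈ pos ι, ∀ v : ι → ℝ, (∀ j, v j ∈ Set.Icc 1 2) →
      (∃ k, tau a r t k s ≤ R) → W a r b δ T t s ≤
        η * (∏ j, 2 ^ Fintype.card κ * (2 + s j ^ (-(1 / 2) : ℝ))) * W a r b δ T t (s + v) := by
  intro R η hη
  filter_upwards [W_shift a r hr hb hbK δ T hδ hT R hη] with t ht s hs v hv hk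
  rw [mul_assoc]
  exact ht s hs hk v fun j => ⟨(hv j).1, (hv j).2⟩

end

end Pool.Agent.H67.GC
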